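import Pool.Agent.Run7.h500.RD.Stm2
/-! RD2 (helper500), piece KER2: the exponential factor. -/
set_option autoImplicit false
open MeasureTheory Filter Topology Set

namespace Run7.h646.RD2
open Pool.Agent.Run7.h500.RD

lemma negI_re (Z : ℂ) : (-Complex.I * Z).re = Z.im := by
  simp

lemma negI_norm (Z : ℂ) : ‖-Complex.I * Z‖ = ‖Z‖ := by
  simp

lemma negI_slit {Z : ℂ} (h : 0 < Z.im) : (-Complex.I * Z) ∈ Complex.slitPlane := by
  rw [Complex.mem_slitPlane_iff]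
  left
  rw [negI_re]
  exact h

lemma cos_pos_half {ρ : ℝ} (h0 : 0 < ρ) (h1 : ρ < 1) : 0 < Real.cos (Real.pi * ρ / 2) := by
  apply Real.cos_pos_of_mem_Ioo
  have := Real.pi_pos
  constructor <;> nlinarith

lemma re_cpow_ge {ρ : ℝ} (h0 : 0 < ρ) (h1 : ρ < 1) {Z : ℂ} (h : 0 < Z.im) :
    Real.cos (Real.pi * ρ / 2) * ‖Z‖ ^ ρ ≤ ((-Complex.I * Z) ^ (ρ : ℂ)).re := by
  rw [Complex.cpow_ofReal_re, negI_norm, mul_comm]
  have harg : |Complex.arg (-Complex.I * Z)| < Real.pi / 2 := by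
    rw [Complex.abs_arg_lt_pi_div_two_iff]
    left
    rw [negI_re]
    exact h
  have hpi := Real.pi_pos
  have hcos : Real.cos (Real.pi * ρ / 2) ≤ Real.cos (Complex.arg (-Complex.I * Z) * ρ) := by
    rw [← Real.cos_abs (Complex.arg (-Complex.I * Z) * ρ)]
    apply Real.cos_le_cos_of_nonneg_of_le_pi (abs_nonneg _)
    · nlinarith
    · rw [abs_mul, abs_of_pos h0]
      nlinarith [abs_nonneg (Complex.arg (-Complex.I * Z))]
  exact mul_le_mul_of_nonneg_left hcos (by positivity)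

lemma EE_hasDerivAt (ρ ε : ℝ) {Z : ℂ} (h : 0 < Z.im) :
    HasDerivAt (EE ρ ε) (EE ρ ε Z *
      (-((ε : ℂ) * ((ρ : ℂ) * (-Complex.I * Z) ^ ((ρ : ℂ) - 1) * (-Complex.I))))) Z := by
  have h1 : HasDerivAt (fun Z : ℂ => -Complex.I * Z) (-Complex.I) Z := by
    simpa using (hasDerivAt_id Z).const_mul (-Complex.I)
  have h2 := (h1.cpow_const (c := (ρ : ℂ)) (negI_slit h))
  have h3 := ((h2.const_mul (ε : ℂ)).neg).cexp
  exact h3

theorem t_KER2 : S_KER2 := by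
  intro ρ ε h0 h1 hε
  have hcos := cos_pos_half h0 h1
  have key : ∀ Z : ℂ, 0 < Z.im →
      ‖EE ρ ε Z‖ ≤ Real.exp (-(ε * Real.cos (Real.pi * ρ / 2) * ‖Z‖ ^ ρ)) := by
    intro Z hZ
    unfold EE
    rw [Complex.norm_exp]
    apply Real.exp_le_exp.mpr
    rw [Complex.neg_re, Complex.re_ofReal_mul]
    have := mul_le_mul_of_nonneg_left (re_cpow_ge h0 h1 hZ) hε.le
    linarith
  have key1 : ∀ Z : ℂ, 0 < Z.im → ‖EE ρ ε Z‖ ≤ 1 := by
    intro Z hZ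
    refine (key Z hZ).trans ?_
    rw [Real.exp_le_one_iff]
    have : 0 ≤ ε * Real.cos (Real.pi * ρ / 2) * ‖Z‖ ^ ρ := by positivity
    linarith
  refine ⟨fun Z hZ => (EE_hasDerivAt ρ ε hZ).differentiableAt.differentiableWithinAt,
    key, key1, ?_⟩
  intro Z hZ
  rw [(EE_hasDerivAt ρ ε hZ).deriv]
  have hn : ‖(-Complex.I * Z) ^ ((ρ : ℂ) - 1)‖ = ‖Z‖ ^ (ρ - 1) := by
    have : ((ρ : ℂ) - 1) = ((ρ - 1 : ℝ) : ℂ) := by push_cast; rfl
    rw [this, Complex.norm_cpow_real, negI_norm]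
  rw [norm_mul, norm_neg, norm_mul, norm_mul, norm_mul, hn, norm_neg, Complex.norm_I, mul_one,
    Complex.norm_real, Complex.norm_real, Real.norm_of_nonneg hε.le, Real.norm_of_nonneg h0.le]
  have hz : 0 ≤ ε * (ρ * ‖Z‖ ^ (ρ - 1)) := by positivity
  calc ‖EE ρ ε Z‖ * (ε * (ρ * ‖Z‖ ^ (ρ - 1))) ≤ 1 * (ε * (ρ * ‖Z‖ ^ (ρ - 1))) :=
        mul_le_mul_of_nonneg_right (key1 Z hZ) hz
    _ = ε * ρ * ‖Z‖ ^ (ρ - 1) := by ring

end Run7.h646.RD2

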